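import Pool.Agent.Helper19_TP.Stmts

/-!
# MP_ce3ba7_al, module RULES: closure rules for T-prime relatively free alternative algebras
-/

set_option autoImplicit false
set_option linter.unusedSectionVars false
set_option linter.unusedVariables false
set_option linter.unusedTactic false

namespace Pool.Agent.TP

namespace H51

section assoc

variable {B : Type} [NonUnitalNonAssocRing B]

lemma asc_add1 (a b y z : B) : asc (a + b) y z = asc a y z + asc b y z := by
  unfold asc; simp only [add_mul]; abel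

lemma asc_add2 (a b y z : B) : asc y (a + b) z = asc y a z + asc y b z := by
  unfold asc; simp only [add_mul, mul_add]; abel

lemma asc_add3 (a b y z : B) : asc y z (a + b) = asc y z a + asc y z b := by
  unfold asc; simp only [mul_add]; abel

lemma asc_sub1 (a b y z : B) : asc (a - b) y z = asc a y z - asc b y z := by
  unfold asc; simp only [sub_mul]; abel

lemma asc_zero1 (y z : B) : asc 0 y z = 0 := by
  unfold asc; simp

lemma asc_l (hA : IsAlt B) (x y : B) : asc x x y = 0 := by
  unfold asc; rw [hA.1 x y, sub_self]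

lemma asc_r (hA : IsAlt B) (x y : B) : asc y x x = 0 := by
  unfold asc; rw [hA.2 x y, sub_self]

lemma asc_s12 (hA : IsAlt B) (x y z : B) : asc x y z = - asc y x z := by
  have h := asc_l hA (x + y) z
  rw [asc_add1, asc_add2, asc_add2, asc_l hA, asc_l hA, zero_add, add_zero] at h
  exact eq_neg_of_add_eq_zero_left h

lemma asc_s23 (hA : IsAlt B) (x y z : B) : asc x y z = - asc x z y := by
  have h := asc_r hA (y + z) x
  rw [asc_add2, asc_add3, asc_add3, asc_r hA, asc_r hA, zero_add, add_zero] at h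
  exact eq_neg_of_add_eq_zero_left h

lemma asc_cyc (hA : IsAlt B) (x y z : B) : asc x y z = asc y z x := by
  rw [asc_s12 hA, asc_s23 hA, neg_neg]

lemma teich (w x y z : B) : asc (w * x) y z - asc w (x * y) z + asc w x (y * z) =
    w * asc x y z + asc w x y * z := by
  unfold asc; simp only [mul_sub, sub_mul]; abel

end assoc

variable {F : Type} [Field F] {B : Type} [NonUnitalNonAssocRing B] [Module F B]
  [IsScalarTower F B B] [SMulCommClass F B B]

lemma asc_smul1 (c : F) (g y z : B) : asc (c • g) y z = c • asc g y z := by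
  unfold asc; simp only [smul_mul_assoc, smul_sub]

lemma asc_map (Φ : B →ₙₐ[F] B) (a b c : B) : Φ (asc a b c) = asc (Φ a) (Φ b) (Φ c) := by
  unfold asc; simp only [map_sub, map_mul]

/-- Replace an endomorphism by one which takes any given values on fresh elements. -/
lemma fresh {x : ℕ → B} (hR : RelFree F B x) (Φ : B →ₙₐ[F] B) (g : B) (y : ℕ → B) :
    ∃ (Ψ : B →ₙₐ[F] B) (z : ℕ → B), Ψ g = Φ g ∧ ∀ i, Ψ (z i) = y i := by
  obtain ⟨m, hm⟩ := hR.fin g
  obtain ⟨Ψ, hΨ⟩ := hR.ext (fun i => if i < m then Φ (x i) else y (i - m))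
  refine ⟨Ψ, fun i => x (m + i), hm _ _ ?_, ?_⟩
  · intro i hi
    rw [hΨ i, if_pos hi]
  · intro i
    rw [hΨ, if_neg (by omega), Nat.add_sub_cancel_left]

/-- The nucleus. -/
def Nuc (F : Type) [Field F] (B : Type) [NonUnitalNonAssocRing B] [Module F B]
    [IsScalarTower F B B] [SMulCommClass F B B] (hA : IsAlt B) : NonUnitalSubalgebra F B where
  carrier := {g | ∀ y z, asc g y z = 0}
  add_mem' := fun {a b} ha hb y z => by rw [asc_add1, ha, hb, add_zero]
  zero_mem' := fun y z => asc_zero1 y z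
  mul_mem' := fun {a b} ha hb y z => by
    have h := teich a b y z
    rw [ha, ha, hb, ha] at h
    simpa using h
  smul_mem' := fun c g hg y z => by rw [asc_smul1, hg, smul_zero]

lemma mem_nuc (hA : IsAlt B) (g : B) : g ∈ Nuc F B hA ↔ ∀ y z, asc g y z = 0 := Iff.rfl

lemma nuc_inv (hA : IsAlt B) {x : ℕ → B} (hR : RelFree F B x) (Φ : B →ₙₐ[F] B) (g : B)
    (hg : ∀ y z, asc g y z = 0) : ∀ y z, asc (Φ g) y z = 0 := by
  intro y z
  obtain ⟨Ψ, w, h1, h2⟩ := fresh hR Φ g (fun i => if i = 0 then y else z)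
  have h3 := congrArg Ψ (hg (w 0) (w 1))
  rw [asc_map, h1, h2, h2, map_zero] at h3
  simpa using h3

lemma nuc_comm (hA : IsAlt B) (g : B) (hg : ∀ y z, asc g y z = 0) (b : B) :
    ∀ y z, asc (g * b - b * g) y z = 0 := by
  intro y z
  have h1 := teich g b y z
  rw [hg, hg, hg] at h1
  have h2 := teich b g y z
  have h3 : asc b g (y * z) = 0 := by rw [asc_s12 hA, hg, neg_zero]
  have h4 : asc b g y = 0 := by rw [asc_s12 hA, hg, neg_zero]
  have h5 : asc b (g * y) z = - (g * asc y b z) := by
    have h := teich g y b z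
    rw [hg, hg, hg] at h
    rw [asc_s12 hA]
    simp only [sub_zero, add_zero, zero_mul] at h
    rw [h]
  rw [h3, h4, hg, h5] at h2
  simp only [sub_zero, add_zero, zero_mul, mul_zero, sub_neg_eq_add] at h1 h2
  rw [asc_sub1, h1, eq_neg_of_add_eq_zero_left h2, asc_s12 hA b y z]
  simp

/-- span of `W ∪ W B` -/
def Idl (W : Submodule F B) : Submodule F B :=
  Submodule.span F {c | c ∈ W ∨ ∃ w ∈ W, ∃ b : B, c = w * b}

lemma idl_sub (W : Submodule F B) : W ≤ Idl W := fun _ hw => Submodule.subset_span (Or.inl hw)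

lemma idl_mul (W : Submodule F B) {w : B} (hw : w ∈ W) (b : B) : w * b ∈ Idl W :=
  Submodule.subset_span (Or.inr ⟨w, hw, b, rfl⟩)

lemma nuc_mul (hA : IsAlt B) {w : B} (hw : ∀ y z, asc w y z = 0) (y z : B) :
    w * y * z = w * (y * z) := sub_eq_zero.1 (hw y z)

lemma nuc_mul2 (hA : IsAlt B) {w : B} (hw : ∀ y z, asc w y z = 0) (y z : B) :
    y * w * z = y * (w * z) := by
  have : asc y w z = 0 := by rw [asc_s12 hA, hw, neg_zero]
  exact sub_eq_zero.1 this

lemma nuc_mul3 (hA : IsAlt B) {w : B} (hw : ∀ y z, asc w y z = 0) (y z : B) :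
    y * z * w = y * (z * w) := by
  have : asc y z w = 0 := by rw [← asc_cyc hA, hw]
  exact sub_eq_zero.1 this

theorem nuc_kill (hA : IsAlt B) (hTP : TPrime F B) (W : Submodule F B)
    (hWN : ∀ w ∈ W, ∀ y z, asc w y z = 0) (hcomm : ∀ w ∈ W, ∀ b, w * b - b * w ∈ W)
    (hinv : FullyInv F B W) (hsq : ∀ w ∈ W, ∀ w' ∈ W, w * w' = 0) : W = ⊥ := by
  have hT : TIdeal F B (Idl W) := by
    constructor
    · intro a ha b
      constructor
      · refine Submodule.span_induction (p := fun a _ => a * b ∈ Idl W) ?_ ?_ ?_ ?_ ha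
        · rintro c (hc | ⟨w, hw, d, rfl⟩)
          · exact idl_mul W hc b
          · change w * d * b ∈ Idl W
            rw [nuc_mul hA (hWN w hw)]
            exact idl_mul W hw _
        · rw [zero_mul]; exact Submodule.zero_mem _
        · intro u v _ _ hu hv
          rw [add_mul]; exact Submodule.add_mem _ hu hv
        · intro c u _ hu
          rw [smul_mul_assoc]; exact Submodule.smul_mem _ _ hu
      · refine Submodule.span_induction (p := fun a _ => b * a ∈ Idl W) ?_ ?_ ?_ ?_ ha
        · have key : ∀ w ∈ W, b * w = w * b - (w * b - b * w) := fun w _ => by abel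
          rintro c (hc | ⟨w, hw, d, rfl⟩)
          · change b * c ∈ Idl W
            rw [key c hc]
            exact Submodule.sub_mem _ (idl_mul W hc b) (idl_sub W (hcomm c hc b))
          · change b * (w * d) ∈ Idl W
            rw [← nuc_mul2 hA (hWN w hw), key w hw, sub_mul, nuc_mul hA (hWN w hw)]
            exact Submodule.sub_mem _ (idl_mul W hw _) (idl_mul W (hcomm w hw b) _)
        · rw [mul_zero]; exact Submodule.zero_mem _
        · intro u v _ _ hu hv
          rw [mul_add]; exact Submodule.add_mem _ hu hv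
        · intro c u _ hu
          rw [mul_smul_comm]; exact Submodule.smul_mem _ _ hu
    · intro Φ a ha
      refine Submodule.span_induction (p := fun a _ => Φ a ∈ Idl W) ?_ ?_ ?_ ?_ ha
      · rintro c (hc | ⟨w, hw, d, rfl⟩)
        · exact idl_sub W (hinv Φ c hc)
        · rw [map_mul]
          exact idl_mul W (hinv Φ w hw) _
      · rw [map_zero]; exact Submodule.zero_mem _
      · intro u v _ _ hu hv
        rw [map_add]; exact Submodule.add_mem _ hu hv
      · intro c u _ hu
        rw [map_smul]; exact Submodule.smul_mem _ _ hu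
  have key : ∀ w ∈ W, ∀ b : B, ∀ w' ∈ W, w * b * w' = 0 := by
    intro w hw b w' hw'
    rw [nuc_mul hA (hWN w hw)]
    have e : b * w' = w' * b - (w' * b - b * w') := by abel
    rw [e, mul_sub, hsq w hw _ (hcomm w' hw' b), ← nuc_mul hA (hWN w hw), hsq w hw w' hw',
      zero_mul, sub_zero]
  have hz : ∀ a ∈ Idl W, ∀ b ∈ Idl W, a * b = 0 := by
    intro a ha b hb
    refine Submodule.span_induction₂ (p := fun a b _ _ => a * b = 0) ?_ ?_ ?_ ?_ ?_ ?_ ?_ ha hb
    · rintro a b (ha | ⟨w, hw, d, rfl⟩) (hb | ⟨w', hw', d', rfl⟩)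
      · exact hsq a ha b hb
      · rw [← nuc_mul hA (hWN a ha), hsq a ha w' hw', zero_mul]
      · exact key w hw d b hb
      · rw [← nuc_mul2 hA (hWN w' hw'), key w hw d w' hw', zero_mul]
    · intro y _; exact zero_mul y
    · intro y _; exact mul_zero y
    · intro x y z _ _ _ h1 h2
      rw [add_mul, h1, h2, add_zero]
    · intro x y z _ _ _ h1 h2
      rw [mul_add, h1, h2, add_zero]
    · intro r x y _ _ h
      rw [smul_mul_assoc, h, smul_zero]
    · intro r x y _ _ h
      rw [mul_smul_comm, h, smul_zero]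
  have := hTP _ _ hT hT hz
  have hI : Idl W = ⊥ := this.elim id id
  rw [eq_bot_iff, ← hI]
  exact idl_sub W

/-- powers of the nucleus -/
def Pw (F : Type) [Field F] (B : Type) [NonUnitalNonAssocRing B] [Module F B]
    [IsScalarTower F B B] [SMulCommClass F B B] (hA : IsAlt B) : ℕ → Submodule F B
  | 0 => (Nuc F B hA).toSubmodule
  | k + 1 => Submodule.span F {c | ∃ w ∈ Pw F B hA k, ∃ m ∈ Nuc F B hA, c = w * m}

lemma pw_nuc (hA : IsAlt B) (k : ℕ) : ∀ w ∈ Pw F B hA k, w ∈ Nuc F B hA := by
  induction k with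
  | zero => intro w hw; exact hw
  | succ k ih =>
    intro w hw
    refine Submodule.span_induction (p := fun a _ => a ∈ Nuc F B hA) ?_ ?_ ?_ ?_ hw
    · rintro c ⟨w, hw, m, hm, rfl⟩
      exact (Nuc F B hA).mul_mem (ih w hw) hm
    · exact (Nuc F B hA).zero_mem
    · intro u v _ _ hu hv
      exact (Nuc F B hA).add_mem hu hv
    · intro c u _ hu
      exact SMulMemClass.smul_mem c hu

lemma pw_mul (hA : IsAlt B) (k : ℕ) {w m : B} (hw : w ∈ Pw F B hA k) (hm : m ∈ Nuc F B hA) :
    w * m ∈ Pw F B hA (k + 1) := Submodule.subset_span ⟨w, hw, m, hm, rfl⟩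

lemma pw_comm (hA : IsAlt B) (k : ℕ) : ∀ w ∈ Pw F B hA k, ∀ b, w * b - b * w ∈ Pw F B hA k := by
  induction k with
  | zero => intro w hw b; exact nuc_comm hA w hw b
  | succ k ih =>
    intro w hw b
    refine Submodule.span_induction (p := fun a _ => a * b - b * a ∈ Pw F B hA (k + 1))
      ?_ ?_ ?_ ?_ hw
    · rintro c ⟨w, hw, m, hm, rfl⟩
      have hwN := pw_nuc hA k w hw
      have e : w * m * b - b * (w * m) = w * (m * b - b * m) + (w * b - b * w) * m := by
        rw [mul_sub, sub_mul, nuc_mul hA hwN, nuc_mul hA hwN, nuc_mul2 hA hwN]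
        abel
      rw [e]
      exact Submodule.add_mem _ (pw_mul hA k hw (nuc_comm hA m hm b)) (pw_mul hA k (ih w hw b) hm)
    · simp
    · intro u v _ _ hu hv
      have e : (u + v) * b - b * (u + v) = (u * b - b * u) + (v * b - b * v) := by
        rw [add_mul, mul_add]; abel
      rw [e]
      exact Submodule.add_mem _ hu hv
    · intro c u _ hu
      rw [smul_mul_assoc, mul_smul_comm, ← smul_sub]
      exact Submodule.smul_mem _ _ hu

lemma pw_inv (hA : IsAlt B) {x : ℕ → B} (hR : RelFree F B x) (k : ℕ) :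
    FullyInv F B (Pw F B hA k) := by
  induction k with
  | zero => intro Φ g hg; exact nuc_inv hA hR Φ g hg
  | succ k ih =>
    intro Φ w hw
    refine Submodule.span_induction (p := fun a _ => Φ a ∈ Pw F B hA (k + 1)) ?_ ?_ ?_ ?_ hw
    · rintro c ⟨w, hw, m, hm, rfl⟩
      rw [map_mul]
      exact pw_mul hA k (ih Φ w hw) (nuc_inv hA hR Φ m hm)
    · rw [map_zero]; exact Submodule.zero_mem _
    · intro u v _ _ hu hv
      rw [map_add]; exact Submodule.add_mem _ hu hv
    · intro c u _ hu
      rw [map_smul]; exact Submodule.smul_mem _ _ hu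

lemma lift_sub (S : NonUnitalSubalgebra F B) (φ : ℕ → S) (f : MonoidAlgebra F (FreeMagma ℕ)) :
    ((MonoidAlgebra.liftMagma F (FreeMagma.lift φ) f : S) : B) =
      MonoidAlgebra.liftMagma F (FreeMagma.lift (fun i => (φ i : B))) f := by
  have h : (NonUnitalSubalgebraClass.subtype S).comp
      (MonoidAlgebra.liftMagma F (FreeMagma.lift φ)) =
      MonoidAlgebra.liftMagma F (FreeMagma.lift (fun i => (φ i : B))) := by
    apply (MonoidAlgebra.liftMagma F).symm.injective
    apply FreeMagma.hom_ext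
    funext i
    simp
  exact congrArg (fun g => g f) h

theorem nuc_zero (S : Set (MonoidAlgebra F (FreeMagma ℕ))) (hS : AssNil F S) {x : ℕ → B}
    (hR : RelFree F B x) (hA : IsAlt B) (hSat : Sat F S B) (hTP : TPrime F B) (g : B)
    (hg : ∀ y z, asc g y z = 0) : g = 0 := by
  obtain ⟨n, V, hV0, hVm, hVn⟩ := hS (Nuc F B hA)
    (fun x y => Subtype.ext (hA.1 _ _)) (fun x y => Subtype.ext (hA.2 _ _))
    (fun f hf φ => Subtype.ext (by rw [lift_sub]; exact hSat f hf _))
    (fun x y z => Subtype.ext (nuc_mul hA x.2 _ _))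
  have hWV : ∀ k, ∀ w ∈ Pw F B hA k, ∃ v ∈ V k, (v : B) = w := by
    intro k
    induction k with
    | zero =>
      intro w hw
      refine ⟨⟨w, hw⟩, ?_, rfl⟩
      rw [hV0]
      trivial
    | succ k ih =>
      intro w hw
      refine Submodule.span_induction (p := fun a _ => ∃ v ∈ V (k + 1), (v : B) = a)
        ?_ ?_ ?_ ?_ hw
      · rintro c ⟨w, hw, m, hm, rfl⟩
        obtain ⟨v, hv, hvw⟩ := ih w hw
        refine ⟨v * ⟨m, hm⟩, ?_, ?_⟩
        · refine hVm k 0 v hv ⟨m, hm⟩ ?_
          rw [hV0]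
          trivial
        · change (v : B) * m = w * m
          rw [hvw]
      · exact ⟨0, Submodule.zero_mem _, rfl⟩
      · rintro u v _ _ ⟨a, ha, rfl⟩ ⟨b, hb, rfl⟩
        exact ⟨a + b, Submodule.add_mem _ ha hb, rfl⟩
      · rintro c u _ ⟨a, ha, rfl⟩
        exact ⟨c • a, Submodule.smul_mem _ _ ha, rfl⟩
  have hWn : Pw F B hA n = ⊥ := by
    rw [eq_bot_iff]
    intro w hw
    obtain ⟨v, hv, hvw⟩ := hWV n w hw
    rw [hVn, Submodule.mem_bot] at hv
    rw [Submodule.mem_bot, ← hvw, hv]
    rfl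
  have hstep : ∀ k, Pw F B hA (k + 1) = ⊥ → Pw F B hA k = ⊥ := by
    intro k hk
    refine nuc_kill hA hTP _ (pw_nuc hA k) (pw_comm hA k) (pw_inv hA hR k) ?_
    intro w hw w' hw'
    have h := pw_mul hA k hw (pw_nuc hA k w' hw')
    rw [hk, Submodule.mem_bot] at h
    exact h
  have hW0 : ∀ k, Pw F B hA k = ⊥ → Pw F B hA 0 = ⊥ := by
    intro k
    induction k with
    | zero => exact id
    | succ k ih => exact fun h => ih (hstep k h)
  have h0 : g ∈ Pw F B hA 0 := hg
  rw [hW0 n hWn, Submodule.mem_bot] at h0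
  exact h0

/-- the associator ideal -/
def D (F : Type) [Field F] (B : Type) [NonUnitalNonAssocRing B] [Module F B] : Submodule F B :=
  Submodule.span F {c | (∃ x y z : B, c = asc x y z) ∨ ∃ a x y z : B, c = a * asc x y z}

lemma asc_mem_D (x y z : B) : asc x y z ∈ D F B :=
  Submodule.subset_span (Or.inl ⟨x, y, z, rfl⟩)

lemma mul_asc_mem_D (a x y z : B) : a * asc x y z ∈ D F B :=
  Submodule.subset_span (Or.inr ⟨a, x, y, z, rfl⟩)

lemma asc_mul (w x y z : B) : asc w x y * z =
    asc (w * x) y z - asc w (x * y) z + asc w x (y * z) - w * asc x y z := by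
  rw [teich]; abel

lemma asc_mul_mem_D (x y z a : B) : asc x y z * a ∈ D F B := by
  rw [asc_mul]
  exact Submodule.sub_mem _ (Submodule.add_mem _ (Submodule.sub_mem _ (asc_mem_D _ _ _)
    (asc_mem_D _ _ _)) (asc_mem_D _ _ _)) (mul_asc_mem_D _ _ _ _)

lemma D_mul_left (b a : B) (ha : a ∈ D F B) : b * a ∈ D F B := by
  refine Submodule.span_induction (p := fun a _ => b * a ∈ D F B) ?_ ?_ ?_ ?_ ha
  · rintro c (⟨x, y, z, rfl⟩ | ⟨a, x, y, z, rfl⟩)
    · exact mul_asc_mem_D _ _ _ _
    · have e : b * (a * asc x y z) = b * a * asc x y z - asc b a (asc x y z) := by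
        rw [show asc b a (asc x y z) = b * a * asc x y z - b * (a * asc x y z) from rfl]
        abel
      rw [e]
      exact Submodule.sub_mem _ (mul_asc_mem_D _ _ _ _) (asc_mem_D _ _ _)
  · rw [mul_zero]; exact Submodule.zero_mem _
  · intro u v _ _ hu hv
    rw [mul_add]; exact Submodule.add_mem _ hu hv
  · intro c u _ hu
    rw [mul_smul_comm]; exact Submodule.smul_mem _ _ hu

lemma D_mul_right (b a : B) (ha : a ∈ D F B) : a * b ∈ D F B := by
  refine Submodule.span_induction (p := fun a _ => a * b ∈ D F B) ?_ ?_ ?_ ?_ ha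
  · rintro c (⟨x, y, z, rfl⟩ | ⟨a, x, y, z, rfl⟩)
    · exact asc_mul_mem_D _ _ _ _
    · have e : a * asc x y z * b = a * (asc x y z * b) + asc a (asc x y z) b := by
        rw [show asc a (asc x y z) b = a * asc x y z * b - a * (asc x y z * b) from rfl]
        abel
      rw [e]
      exact Submodule.add_mem _ (D_mul_left _ _ (asc_mul_mem_D _ _ _ _)) (asc_mem_D _ _ _)
  · rw [zero_mul]; exact Submodule.zero_mem _
  · intro u v _ _ hu hv
    rw [add_mul]; exact Submodule.add_mem _ hu hv
  · intro c u _ hu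
    rw [smul_mul_assoc]; exact Submodule.smul_mem _ _ hu

lemma D_T : TIdeal F B (D F B) := by
  refine ⟨fun a ha b => ⟨D_mul_right b a ha, D_mul_left b a ha⟩, ?_⟩
  intro Φ a ha
  refine Submodule.span_induction (p := fun a _ => Φ a ∈ D F B) ?_ ?_ ?_ ?_ ha
  · rintro c (⟨x, y, z, rfl⟩ | ⟨a, x, y, z, rfl⟩)
    · rw [asc_map]; exact asc_mem_D _ _ _
    · rw [map_mul, asc_map]; exact mul_asc_mem_D _ _ _ _
  · rw [map_zero]; exact Submodule.zero_mem _
  · intro u v _ _ hu hv
    rw [map_add]; exact Submodule.add_mem _ hu hv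
  · intro c u _ hu
    rw [map_smul]; exact Submodule.smul_mem _ _ hu

/-- the annihilator of the associator ideal -/
def Ann (F : Type) [Field F] (B : Type) [NonUnitalNonAssocRing B] [Module F B]
    [IsScalarTower F B B] [SMulCommClass F B B] : Submodule F B where
  carrier := {g | ∀ d ∈ D F B, g * d = 0 ∧ d * g = 0}
  add_mem' := fun {a b} ha hb d hd => by
    rw [add_mul, mul_add, (ha d hd).1, (ha d hd).2, (hb d hd).1, (hb d hd).2, add_zero]
    exact ⟨rfl, rfl⟩
  zero_mem' := fun d _ => ⟨zero_mul d, mul_zero d⟩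
  smul_mem' := fun c g hg d hd => by
    rw [smul_mul_assoc, mul_smul_comm, (hg d hd).1, (hg d hd).2, smul_zero]
    exact ⟨rfl, rfl⟩

lemma mem_ann {g : B} (h1 : ∀ x y z, g * asc x y z = 0) (h2 : ∀ x y z, asc x y z * g = 0)
    (h3 : ∀ a x y z, g * (a * asc x y z) = 0) (h4 : ∀ a x y z, a * asc x y z * g = 0) :
    g ∈ Ann F B := by
  intro d hd
  refine Submodule.span_induction (p := fun d _ => g * d = 0 ∧ d * g = 0) ?_ ?_ ?_ ?_ hd
  · rintro c (⟨x, y, z, rfl⟩ | ⟨a, x, y, z, rfl⟩)
    · exact ⟨h1 _ _ _, h2 _ _ _⟩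
    · exact ⟨h3 _ _ _ _, h4 _ _ _ _⟩
  · exact ⟨mul_zero _, zero_mul _⟩
  · intro u v _ _ hu hv
    rw [mul_add, add_mul, hu.1, hu.2, hv.1, hv.2, add_zero]
    exact ⟨rfl, rfl⟩
  · intro c u _ hu
    rw [smul_mul_assoc, mul_smul_comm, hu.1, hu.2, smul_zero]
    exact ⟨rfl, rfl⟩

lemma ann_T (hA : IsAlt B) {x : ℕ → B} (hR : RelFree F B x) : TIdeal F B (Ann F B) := by
  constructor
  · intro g hg b
    -- associators with g and d vanish
    have h0 : ∀ d ∈ D F B, asc g d b = 0 := by
      intro d hd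
      unfold asc
      rw [(hg d hd).1, (hg _ (D_mul_right b d hd)).1, zero_mul, sub_zero]
    have h1 : ∀ d ∈ D F B, asc g b d = 0 := by
      intro d hd
      rw [asc_s23 hA, h0 d hd, neg_zero]
    have h2 : ∀ d ∈ D F B, asc d g b = 0 := by
      intro d hd
      rw [asc_s12 hA, h0 d hd, neg_zero]
    have h3 : ∀ d ∈ D F B, asc b g d = 0 := by
      intro d hd
      rw [asc_s12 hA, h1 d hd, neg_zero]
    have h4 : ∀ d ∈ D F B, asc d b g = 0 := by
      intro d hd
      rw [asc_s23 hA, h2 d hd, neg_zero]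
    constructor
    · intro d hd
      constructor
      · have h := h1 d hd
        unfold asc at h
        rw [(hg _ (D_mul_left b d hd)).1, sub_zero] at h
        exact h
      · have h := h2 d hd
        unfold asc at h
        rw [(hg d hd).2, zero_mul, zero_sub, neg_eq_zero] at h
        exact h
    · intro d hd
      constructor
      · have h := h3 d hd
        unfold asc at h
        rw [(hg d hd).1, mul_zero, sub_zero] at h
        exact h
      · have h := h4 d hd
        unfold asc at h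
        rw [(hg _ (D_mul_right b d hd)).2, zero_sub, neg_eq_zero] at h
        exact h
  · intro Φ g hg
    refine mem_ann ?_ ?_ ?_ ?_
    · intro u v w
      obtain ⟨Ψ, z, e1, e2⟩ := fresh hR Φ g (fun i => if i = 0 then u else if i = 1 then v else w)
      have h := congrArg Ψ (hg _ (asc_mem_D (z 0) (z 1) (z 2))).1
      rw [map_mul, asc_map, e1, e2, e2, e2, map_zero] at h
      simpa using h
    · intro u v w
      obtain ⟨Ψ, z, e1, e2⟩ := fresh hR Φ g (fun i => if i = 0 then u else if i = 1 then v else w)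
      have h := congrArg Ψ (hg _ (asc_mem_D (z 0) (z 1) (z 2))).2
      rw [map_mul, asc_map, e1, e2, e2, e2, map_zero] at h
      simpa using h
    · intro a u v w
      obtain ⟨Ψ, z, e1, e2⟩ := fresh hR Φ g
        (fun i => if i = 0 then u else if i = 1 then v else if i = 2 then w else a)
      have h := congrArg Ψ (hg _ (mul_asc_mem_D (z 3) (z 0) (z 1) (z 2))).1
      rw [map_mul, map_mul, asc_map, e1, e2, e2, e2, e2, map_zero] at h
      simpa using h
    · intro a u v w
      obtain ⟨Ψ, z, e1, e2⟩ := fresh hR Φ g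
        (fun i => if i = 0 then u else if i = 1 then v else if i = 2 then w else a)
      have h := congrArg Ψ (hg _ (mul_asc_mem_D (z 3) (z 0) (z 1) (z 2))).2
      rw [map_mul, map_mul, asc_map, e1, e2, e2, e2, e2, map_zero] at h
      simpa using h

end H51

open H51 in
/-- RULES -/
theorem rules : RulesStmt := by
  intro F _ S hS B _ _ _ _ x hR hA hSat hTP hns
  have hnon : ∃ x y z : B, asc x y z ≠ 0 := by
    by_contra hcon
    push Not at hcon
    obtain ⟨n, V, hV0, hVm, hVn⟩ := hS B hA.1 hA.2 hSat (fun a b c => sub_eq_zero.1 (hcon a b c))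
    refine hns n ⟨V, hV0, ?_, hVn⟩
    intro k a ha b _
    have : a * b ∈ V (k + 0 + 1) := hVm k 0 a ha b (by rw [hV0]; trivial)
    exact this
  have hnuc : ∀ g : B, (∀ y z, asc g y z = 0) → g = 0 :=
    fun g hg => nuc_zero S hS hR hA hSat hTP g hg
  refine ⟨hnon, hnuc, ?_, ?_, ?_⟩
  · intro g h1 h2 h3
    have h4 : ∀ a x y z, a * asc x y z * g = 0 := by
      intro a x y z
      have e1 : asc a (asc x y z) g = a * asc x y z * g := by
        rw [asc, h2, mul_zero, sub_zero]
      rw [← e1, ← asc_cyc hA, asc_s23 hA]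
      have hD : asc x y z * a ∈ D F B := asc_mul_mem_D x y z a
      have h5 : g * (asc x y z * a) = 0 := by
        rw [asc_mul, mul_sub, mul_add, mul_sub, h1, h1, h1, h3]
        simp
      have : asc g (asc x y z) a = 0 := by
        rw [asc, h1, zero_mul, h5, sub_zero]
      rw [this, neg_zero]
    have hg : g ∈ Ann F B := mem_ann h1 h2 h3 h4
    rcases hTP _ _ (ann_T hA hR) D_T (fun a ha d hd => (ha d hd).1) with h | h
    · rw [h, Submodule.mem_bot] at hg
      exact hg
    · obtain ⟨a, b, c, habc⟩ := hnon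
      have := asc_mem_D (F := F) a b c
      rw [h, Submodule.mem_bot] at this
      exact absurd this habc
  · intro g hg
    refine hnuc g fun y z => ?_
    rw [asc, hg, hg, zero_mul, sub_zero]
  · intro g hg
    refine hnuc g fun y z => ?_
    rw [asc_cyc hA, asc, hg, hg, mul_zero, sub_zero]

end Pool.Agent.TP
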