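import Pool.Agent.Helper51_TP.Rules

/-!
# MP_ce3ba7_al: the Kleinfeld function is alternating, and the rule `ann` without 2-torsion
-/

set_option autoImplicit false
set_option linter.unusedSectionVars false
set_option linter.unusedVariables false

namespace Pool.Agent.TP

namespace H51

variable {B : Type} [NonUnitalNonAssocRing B]

lemma asc_sub2 (a b y z : B) : asc y (a - b) z = asc y a z - asc y b z := by
  unfold asc; simp only [sub_mul, mul_sub]; abel

lemma asc_sub3 (a b y z : B) : asc y z (a - b) = asc y z a - asc y z b := by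
  unfold asc; simp only [mul_sub]; abel

lemma asc_neg1 (a y z : B) : asc (-a) y z = - asc a y z := by
  unfold asc; simp only [neg_mul]; abel

lemma asc_s13 (hA : IsAlt B) (x y z : B) : asc x y z = - asc z y x := by
  rw [asc_cyc hA x y z, asc_s12 hA y z x]

/-- The Kleinfeld function. -/
def kf (w x y z : B) : B := asc (w * x) y z - x * asc w y z - asc x y z * w

lemma kf_s34 (hA : IsAlt B) (w x y z : B) : kf w x y z = - kf w x z y := by
  unfold kf
  rw [asc_s23 hA (w * x) y z, asc_s23 hA w y z, asc_s23 hA x y z, mul_neg, neg_mul]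
  abel

/-- the alternating sum of commutators -/
def kh (w x y z : B) : B := (w * asc x y z - asc x y z * w) - (x * asc y z w - asc y z w * x) +
  (y * asc z w x - asc z w x * y) - (z * asc w x y - asc w x y * z)

lemma kf_teich (hA : IsAlt B) (w x y z : B) :
    kf w x y z - kf x y z w + kf y z w x = kh w x y z := by
  have h := teich w x y z
  have e1 : asc w (x * y) z = asc (x * y) z w := asc_cyc hA _ _ _
  have e2 : asc w x (y * z) = asc (y * z) w x := by
    rw [asc_cyc hA (y * z) w x]
  rw [e1, e2] at h
  have e3 : asc w y z = asc y z w := asc_cyc hA _ _ _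
  have e4 : asc x z w = asc z w x := asc_cyc hA _ _ _
  have e5 : asc y w x = asc w x y := asc_cyc hA _ _ _
  unfold kf kh
  rw [e3, e4, e5]
  have h' : asc (w * x) y z = w * asc x y z + asc w x y * z + asc (x * y) z w -
      asc (y * z) w x := by
    rw [← h]; abel
  rw [h']
  abel

lemma kf_cyc (hA : IsAlt B) (w x y z : B) : kf z w x y = - kf w x y z := by
  have h1 := kf_teich hA w x y z
  have h2 := kf_teich hA x y z w
  have h3 : kh x y z w = - kh w x y z := by
    unfold kh
    abel
  rw [h3, ← h1] at h2
  have h4 : kf z w x y + kf w x y z = 0 := by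
    have : kf z w x y + kf w x y z = (kf x y z w - kf y z w x + kf z w x y) +
      (kf w x y z - kf x y z w + kf y z w x) := by abel
    rw [this, h2]
    abel
  exact eq_neg_of_add_eq_zero_left h4

lemma kf_swap (hA : IsAlt B) (w x y z : B) : kf y z w x = kf w x y z := by
  rw [kf_cyc hA z w x y, kf_cyc hA w x y z, neg_neg]

lemma kf_s12 (hA : IsAlt B) (w x y z : B) : kf w x y z = - kf x w y z := by
  rw [← kf_swap hA w x y z, kf_s34 hA y z w x, kf_swap hA]

lemma kf_three (hA : IsAlt B) (w x y z : B) : 3 • kf w x y z = kh w x y z := by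
  have h1 := kf_teich hA w x y z
  have h2 : kf x y z w = - kf w x y z := by
    rw [kf_cyc hA x y z w, neg_neg]
  rw [h2, kf_swap hA w x y z] at h1
  rw [← h1]
  abel

/-- `f(w,x,y,z) = ([w,x],y,z) + ([y,z],w,x)` -/
lemma kf_comm (hA : IsAlt B) (w x y z : B) :
    kf w x y z = asc (w * x - x * w) y z + asc (y * z - z * y) w x := by
  have h3 := kf_three hA w x y z
  have a1 : asc (w * x) y z = kf w x y z + x * asc w y z + asc x y z * w := by
    unfold kf; abel
  have a2 : asc (x * w) y z = kf x w y z + w * asc x y z + asc w y z * x := by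
    unfold kf; abel
  have a3 : asc (y * z) w x = kf y z w x + z * asc y w x + asc z w x * y := by
    unfold kf; abel
  have a4 : asc (z * y) w x = kf z y w x + y * asc z w x + asc y w x * z := by
    unfold kf; abel
  have b2 : kf x w y z = - kf w x y z := by rw [kf_s12 hA]
  have b3 : kf y z w x = kf w x y z := kf_swap hA _ _ _ _
  have b4 : kf z y w x = - kf w x y z := by rw [kf_s12 hA, kf_swap hA]
  have e3 : asc w y z = asc y z w := asc_cyc hA _ _ _
  have e5 : asc y w x = asc w x y := asc_cyc hA _ _ _
  rw [asc_sub1, asc_sub1, a1, a2, a3, a4, b2, b3, b4, e3, e5]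
  unfold kh at h3
  rw [← sub_eq_zero] at h3
  refine (add_zero (kf w x y z)).symm.trans ?_
  rw [← h3]
  abel

section r
variable (hA : IsAlt B) (r : B) (h1 : ∀ x y z, r * asc x y z = 0)
  (h2 : ∀ x y z, asc x y z * r = 0)

include hA h1 h2

lemma mul_kf (w x y z : B) : r * kf w x y z = 0 := by
  rw [kf_comm hA, mul_add, h1, h1, add_zero]

lemma kf_mul (w x y z : B) : kf w x y z * r = 0 := by
  rw [kf_comm hA, add_mul, h2, h2, add_zero]

/-- (A1) -/
lemma A1 (a b c d : B) : r * (asc b c d * a) = asc r a (asc b c d) := by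
  have h : asc r (asc b c d) a = - (r * (asc b c d * a)) := by
    conv_lhs => rw [asc]
    rw [h1, zero_mul, zero_sub]
  rw [asc_s23 hA r a, h, neg_neg]

lemma A2' (w x y z : B) : r * (x * asc w y z) = - asc r w (asc x y z) := by
  have h := mul_kf hA r h1 h2 w x y z
  unfold kf at h
  rw [mul_sub, mul_sub, h1, A1 hA r h1 h2, zero_sub, sub_eq_zero] at h
  rw [← h, neg_neg]

lemma X13 (w x y z : B) : asc r w (asc x y z) = - asc r y (asc x w z) := by
  have e1 := A2' hA r h1 h2 w x y z
  have e2 := A2' hA r h1 h2 y x w z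
  rw [asc_s12 hA w y z, mul_neg, mul_neg, e2, neg_neg] at e1
  rw [e1, neg_neg]

lemma X12 (w x y z : B) : asc r w (asc x y z) = - asc r x (asc w y z) := by
  have e1 : asc r w (asc x y z) = - asc r w (asc y x z) := by
    rw [asc_s12 hA x y z]
    rw [asc_s23 hA r w (-asc y x z), asc_s23 hA r w (asc y x z), asc_s12 hA r (-asc y x z),
      asc_s12 hA r (asc y x z), asc_neg1]
  rw [e1, X13 hA r h1 h2 w y x z, neg_neg]
  have e2 : asc r x (asc y w z) = - asc r x (asc w y z) := by
    rw [asc_s12 hA y w z]
    rw [asc_s23 hA r x (-asc w y z), asc_s23 hA r x (asc w y z), asc_s12 hA r (-asc w y z),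
      asc_s12 hA r (asc w y z), asc_neg1]
  rw [e2]

lemma A2 (a b c d : B) : r * (a * asc b c d) = asc r a (asc b c d) := by
  rw [A2' hA r h1 h2, X12 hA r h1 h2, neg_neg]

lemma A3 (a b c d : B) : (r * a) * asc b c d = 2 • asc r a (asc b c d) := by
  have h : asc r a (asc b c d) = (r * a) * asc b c d - r * (a * asc b c d) := rfl
  rw [A2 hA r h1 h2] at h
  rw [two_nsmul]
  exact (sub_eq_iff_eq_add.1 h.symm)

lemma A4 (a b c d : B) : asc b c d * (r * a) = - asc r a (asc b c d) := by
  have h : asc (asc b c d) r a = asc b c d * r * a - asc b c d * (r * a) := rfl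
  rw [h2, zero_mul, zero_sub, asc_cyc hA] at h
  rw [h, neg_neg]

lemma A5 (a b c d : B) : (a * r) * asc b c d = - asc r a (asc b c d) := by
  have h : asc a r (asc b c d) = a * r * asc b c d - a * (r * asc b c d) := rfl
  rw [h1, mul_zero, sub_zero, asc_s12 hA] at h
  exact h.symm

lemma A6 (a b c d : B) : asc b c d * (a * r) = 2 • asc r a (asc b c d) := by
  -- (a T) r = X
  have h3 : ∀ a b c d : B, a * asc b c d * r = asc r a (asc b c d) := by
    intro a b c d
    have h : asc a (asc b c d) r = a * asc b c d * r - a * (asc b c d * r) := rfl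
    rw [h2, mul_zero, sub_zero, ← asc_cyc hA] at h
    exact h.symm
  -- (T a) r = X
  have h4 : asc b c d * a * r = asc r a (asc b c d) := by
    have h := kf_mul hA r h1 h2 a b c d
    unfold kf at h
    rw [sub_mul, sub_mul, h2, h3, zero_sub, sub_eq_zero, X12 hA r h1 h2, neg_neg] at h
    exact h.symm
  have h5 : asc (asc b c d) a r = asc b c d * a * r - asc b c d * (a * r) := rfl
  have h6 : asc (asc b c d) a r = - asc r a (asc b c d) := by
    rw [asc_s23 hA, asc_cyc hA]
  rw [h4, h6] at h5
  rw [two_nsmul]
  have : asc b c d * (a * r) = asc r a (asc b c d) - (- asc r a (asc b c d)) := by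
    rw [h5]; abel
  rw [this]; abel

lemma star1 (a b c d : B) : asc (r * (a * b)) c d + asc (asc r a b) c d + asc (b * r * a) c d -
    asc (asc r a b) c d = b * asc (r * a) c d + asc (r * a) c d * b + asc r a (asc b c d) := by
  have h := kf_s12 hA (r * a) b c d
  unfold kf at h
  rw [A4 hA r h1 h2, A3 hA r h1 h2] at h
  have e1 : r * a * b = r * (a * b) + asc r a b := by unfold asc; abel
  have e2 : b * (r * a) = b * r * a - asc r a b := by
    rw [← asc_cyc hA b r a]; unfold asc; abel
  rw [e1, e2, asc_add1, asc_sub1] at h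
  linear_combination (norm := abel) h

lemma star2 (a b c d : B) : asc (b * r * a) c d + asc (a * b * r) c d - asc (asc r a b) c d =
    a * asc (b * r) c d + asc (b * r) c d * a - asc r a (asc b c d) := by
  have h := kf_s12 hA (b * r) a c d
  unfold kf at h
  rw [A6 hA r h1 h2, A5 hA r h1 h2] at h
  have e1 : a * (b * r) = a * b * r - asc r a b := by
    rw [asc_cyc hA r a b]; unfold asc; abel
  have e2 : asc r b (asc a c d) = - asc r a (asc b c d) := X12 hA r h1 h2 b a c d
  rw [e1, asc_sub1, e2] at h
  linear_combination (norm := abel) h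

/-- (★★) -/
lemma star3 (a b c d : B) : 2 • asc r a (asc b c d) =
    2 • kf r (a * b) c d + (a * b * asc r c d - asc r c d * (a * b)) -
      (b * a * asc r c d - asc r c d * (b * a)) - asc (asc r c d) a b + asc (asc r a b) c d -
      (b * kf r a c d + kf r a c d * b) - (a * kf r b c d + kf r b c d * a) := by
  have s1 := star1 hA r h1 h2 a b c d
  have s2 := star2 hA r h1 h2 a b c d
  have g1 : ∀ w, asc (r * w) c d = kf r w c d + w * asc r c d := by
    intro w
    unfold kf
    rw [h2]
    abel
  have g2 : ∀ w, asc (w * r) c d = asc r c d * w - kf r w c d := by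
    intro w
    rw [kf_s12 hA r w c d]
    unfold kf
    rw [h1]
    abel
  rw [g1, g1] at s1
  rw [g2, g2] at s2
  have e1 : b * (a * asc r c d) = b * a * asc r c d - asc b a (asc r c d) := by unfold asc; abel
  have e2 : a * asc r c d * b = a * (asc r c d * b) + asc a (asc r c d) b := by unfold asc; abel
  have e3 : asc r c d * b * a = asc r c d * (b * a) + asc (asc r c d) b a := by unfold asc; abel
  have e4 : asc b a (asc r c d) = - asc (asc r c d) a b := by
    rw [asc_cyc hA b a, asc_cyc hA a _ b, asc_s23 hA]
  have e5 : asc a (asc r c d) b = - asc (asc r c d) a b := by rw [asc_s12 hA]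
  have e6 : asc (asc r c d) b a = - asc (asc r c d) a b := by rw [asc_s23 hA]
  rw [mul_add, add_mul, e1, e2, e4, e5] at s1
  rw [mul_sub, sub_mul, e3, e6] at s2
  linear_combination (norm := abel) s2 - s1

lemma kf_w (w c d : B) : kf r w c d + (w * asc r c d - asc r c d * w) =
    - asc r w (c * d - d * c) := by
  have h := kf_comm hA r w c d
  have g1 : asc (r * w) c d = kf r w c d + w * asc r c d := by
    unfold kf
    rw [h2]
    abel
  have g2 : asc (w * r) c d = asc r c d * w - kf r w c d := by
    rw [kf_s12 hA r w c d]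
    unfold kf
    rw [h1]
    abel
  rw [asc_sub1, g1, g2, asc_cyc hA (c * d - d * c) r w] at h
  linear_combination (norm := abel) - h

lemma kf_sub2 (a b c d : B) : kf r (a - b) c d = kf r a c d - kf r b c d := by
  unfold kf
  rw [mul_sub, asc_sub1, asc_sub1, sub_mul, sub_mul]
  abel

lemma C1 (a b c d : B) : 4 • asc r a (asc b c d) =
    2 • (asc (asc r a b) c d - asc (asc r c d) a b - asc r (a * b - b * a) (c * d - d * c)) := by
  have s := star3 hA r h1 h2 a b c d
  have t := star3 hA r h1 h2 b a c d
  have x : asc r b (asc a c d) = - asc r a (asc b c d) := X12 hA r h1 h2 b a c d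
  have u1 : asc (asc r c d) b a = - asc (asc r c d) a b := by rw [asc_s23 hA]
  have u2 : asc (asc r b a) c d = - asc (asc r a b) c d := by rw [asc_s23 hA r b a, asc_neg1]
  have k := kf_w hA r h1 h2 (a * b - b * a) c d
  rw [kf_sub2 hA r h1 h2, sub_mul, mul_sub] at k
  rw [x, u1, u2] at t
  linear_combination (norm := abel) s - t + 2 • k

lemma Xeq (a b c d : B) : asc r c (asc d a b) = asc r a (asc b c d) := by
  have e : asc b a d = - asc d a b := asc_s13 hA b a d
  have e2 : asc r c (- asc d a b) = - asc r c (asc d a b) := by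
    unfold asc; simp only [mul_neg]; abel
  rw [X13 hA r h1 h2 a b c d, e, e2, neg_neg]

lemma X8 (a b c d : B) : 8 • asc r a (asc b c d) = 0 := by
  have s := C1 hA r h1 h2 a b c d
  have t := C1 hA r h1 h2 c d a b
  have k : asc r (c * d - d * c) (a * b - b * a) = - asc r (a * b - b * a) (c * d - d * c) :=
    asc_s23 hA _ _ _
  rw [Xeq hA r h1 h2 a b c d, k] at t
  linear_combination (norm := abel) s + t

end r

/-- In an alternative ring without `2`-torsion, if `r` kills all associators from both sides,
then `r` kills the ideal they generate. -/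
theorem h51_ann (hA : IsAlt B) (h2t : ∀ x : B, 2 • x = 0 → x = 0) (r : B)
    (h1 : ∀ x y z, r * asc x y z = 0) (h2 : ∀ x y z, asc x y z * r = 0) :
    ∀ a x y z, r * (a * asc x y z) = 0 := by
  intro a x y z
  rw [A2 hA r h1 h2]
  apply h2t
  apply h2t
  apply h2t
  rw [← mul_nsmul, ← mul_nsmul]
  exact X8 hA r h1 h2 a x y z

end H51

end Pool.Agent.TP
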