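import Pool.Agent.Helper28_TP.StS
import Pool.Agent.Helper33_FPP.Link

/-!
# SEP: separation of two connected sets in a rectangle
-/

set_option autoImplicit false

namespace Pool.Agent.TP.H51

open Pool.Agent.TP
open Pool.Agent.Helper33_FPP (Z2 dst Rect)
open Pool.Agent.Helper33_FPP.Lnk (Cn rect_conn)

namespace SepAux

theorem dst_comm (u v : ℤ × ℤ) : dst u v = dst v u := by
  unfold dst
  have h1 : (u.1 - v.1).natAbs = (v.1 - u.1).natAbs := by omega
  have h2 : (u.2 - v.2).natAbs = (v.2 - u.2).natAbs := by omega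
  rw [h1, h2]

theorem rect_finite (a b : ℤ × ℤ) : (Rect a b).Finite := by
  apply Set.Finite.subset ((Set.finite_Icc a.1 b.1).prod (Set.finite_Icc a.2 b.2))
  intro v hv
  simp only [Rect, Set.mem_ofPred_eq] at hv
  exact ⟨⟨hv.1, hv.2.1⟩, ⟨hv.2.2.1, hv.2.2.2⟩⟩

/-- a chain inside `T` connects its head with all its members, in both directions -/
theorem chain_conn {T : Finset (ℤ × ℤ)} : ∀ (L : List (ℤ × ℤ)) (x : ℤ × ℤ),
    (x :: L).IsChain (fun a b => dst a b ≤ 1) → (∀ v ∈ x :: L, v ∈ T) → ∀ y ∈ x :: L,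
      Relation.ReflTransGen (fun u v => v ∈ T ∧ dst u v ≤ 1) x y ∧
      Relation.ReflTransGen (fun u v => v ∈ T ∧ dst u v ≤ 1) y x := by
  intro L
  induction L with
  | nil =>
    intro x _ _ y hy
    have : y = x := by simpa using hy
    rw [this]
    exact ⟨Relation.ReflTransGen.refl, Relation.ReflTransGen.refl⟩
  | cons w L ih =>
    intro x hc hm y hy
    rw [List.isChain_cons_cons] at hc
    have hx : x ∈ T := hm x (by simp)
    have hw : w ∈ T := hm w (by simp)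
    rcases List.mem_cons.1 hy with rfl | hy
    · exact ⟨Relation.ReflTransGen.refl, Relation.ReflTransGen.refl⟩
    · obtain ⟨h1, h2⟩ := ih w hc.2 (fun v hv => hm v (List.mem_cons_of_mem _ hv)) y hy
      exact ⟨Relation.ReflTransGen.head ⟨hw, hc.1⟩ h1,
        h2.tail ⟨hx, by rw [dst_comm]; exact hc.1⟩⟩

theorem chain_conn' {T : Finset (ℤ × ℤ)} (L : List (ℤ × ℤ))
    (hc : L.IsChain (fun a b => dst a b ≤ 1)) (hm : ∀ v ∈ L, v ∈ T) (x y : ℤ × ℤ) (hx : x ∈ L)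
    (hy : y ∈ L) : Relation.ReflTransGen (fun u v => v ∈ T ∧ dst u v ≤ 1) x y := by
  cases L with
  | nil => simp at hx
  | cons w L =>
    exact (chain_conn L w hc hm x hx).2.trans (chain_conn L w hc hm y hy).1

end SepAux

open SepAux in
theorem sep : SepStmt := by
  classical
  intro a b C K F hC hK hdis hCne hKne hCc hKc hF
  obtain ⟨k0, hk0⟩ := hKne
  obtain ⟨c0, hc0⟩ := hCne
  have hKRC : K ⊆ Rect a b \ C := fun v hv => ⟨hK hv, fun hc => hdis.le_bot ⟨hc, hv⟩⟩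
  -- the component of the complement of `C` containing `K`
  let Kh : Set (ℤ × ℤ) := {v | Cn (Rect a b \ C) k0 v}
  have hKh_sub : Kh ⊆ Rect a b \ C := fun v hv => Cn.right hv
  have hKKh : K ⊆ Kh := by
    intro v hv
    have h1 : Cn K k0 v := hKc k0 hk0 v hv
    exact h1.mono hKRC
  have hKh_step : ∀ u v, u ∈ Kh → v ∈ Rect a b → v ∉ C → Z2.Adj u v → v ∈ Kh := by
    intro u v hu hv hvC hadj
    exact Cn.trans hu (Cn.step (hKh_sub hu) ⟨hv, hvC⟩ hadj)
  have hKh_conn : ∀ x ∈ Kh, ∀ y ∈ Kh, Cn Kh x y := by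
    have key : ∀ x ∈ Kh, Cn Kh k0 x := by
      rintro x ⟨q, hq⟩
      exact ⟨q, fun v hv => Cn.of_mem q hq hv⟩
    intro x hx y hy
    exact (key x hx).symm.trans (key y hy)
  -- the complement is connected
  have hC_sub : C ⊆ Rect a b \ Kh := fun v hv => ⟨hC hv, fun h => (hKh_sub h).2 hv⟩
  have hcomp : ∀ x y : ℤ × ℤ, ∀ q : Z2.Walk x y, (∀ v ∈ q.support, v ∈ Rect a b) → x ∉ Kh → y ∈ C →
      ∃ c ∈ C, Cn (Rect a b \ Kh) x c := by
    intro x y q
    induction q with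
    | nil =>
      intro hq hx hy
      exact ⟨_, hy, Cn.refl (hC_sub hy)⟩
    | @cons u v w hadj p ih =>
      intro hq hu hw
      have huR : u ∈ Rect a b := hq u (by simp)
      have hvR : v ∈ Rect a b := hq v (by simp)
      by_cases huC : u ∈ C
      · exact ⟨u, huC, Cn.refl (hC_sub huC)⟩
      · have hv : v ∉ Kh := fun hv => hu (hKh_step v u hv huR huC hadj.symm)
        obtain ⟨c, hc, hcn⟩ := ih (fun z hz => hq z (by simp [hz])) hv hw
        exact ⟨c, hc, Cn.trans (Cn.step (D := Rect a b \ Kh) ⟨huR, hu⟩ ⟨hvR, hv⟩ hadj) hcn⟩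
  have hcompC : ∀ x ∈ Rect a b \ Kh, Cn (Rect a b \ Kh) x c0 := by
    intro x hx
    obtain ⟨q, hq⟩ := rect_conn hx.1 (hC hc0)
    obtain ⟨c, hc, hcn⟩ := hcomp x c0 q hq hx.2 hc0
    have h2 : Cn C c c0 := hCc c hc c0 hc0
    exact hcn.trans (h2.mono hC_sub)
  have hcompl : ∀ x ∈ Rect a b \ Kh, ∀ y ∈ Rect a b \ Kh, Cn (Rect a b \ Kh) x y :=
    fun x hx y hy => (hcompC x hx).trans (hcompC y hy).symm
  -- the boundary
  have hKhR : Kh ⊆ Rect a b := fun v hv => (hKh_sub hv).1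
  let T : Finset (ℤ × ℤ) := (rect_finite a b).toFinset.filter
    (fun v => v ∈ Kh ∧ ∃ v' ∈ Rect a b \ Kh, Z2.Adj v v')
  have hTmem : ∀ v, v ∈ T ↔ (v ∈ Kh ∧ ∃ v' ∈ Rect a b \ Kh, Z2.Adj v v') := by
    intro v
    simp only [T, Finset.mem_filter, Set.Finite.mem_toFinset]
    exact ⟨fun h => h.2, fun h => ⟨hKhR h.1, h⟩⟩
  refine ⟨T, ?_, ?_, ?_⟩
  · intro v hv
    obtain ⟨hvK, v', hv', hadj⟩ := (hTmem v).1 hv
    have hv'C : v' ∈ C := by
      by_contra hcon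
      exact hv'.2 (hKh_step v v' hvK hv'.1 hcon hadj)
    rcases hF v' hv'C v (hKhR hvK) hadj.symm with h | h
    · exact absurd h (hKh_sub hvK).2
    · exact ⟨⟨h, hKhR hvK⟩, (hKh_sub hvK).2⟩
  · intro x hx y hy
    obtain ⟨L, hL, hxL, hyL, hLm⟩ := Pool.Agent.Helper33_FPP.unicoherent hKhR hKh_conn hcompl
      ((hTmem x).1 hx) ((hTmem y).1 hy)
    exact chain_conn' L hL (fun v hv => (hTmem v).2 (hLm v hv)) x y hxL hyL
  · rintro L hLR hLc ⟨c, hcL, hcC⟩ ⟨k, hkL, hkK⟩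
    have h1 : Cn L k c := hLc k hkL c hcL
    obtain ⟨v, v', hvL, hvK, hv'L, hv'K, hadj⟩ := h1.exit (K := Kh) (hKKh hkK)
      (fun h => (hKh_sub h).2 hcC)
    exact ⟨v, (hTmem v).2 ⟨hvK, v', ⟨hLR hv'L, hv'K⟩, hadj⟩, hvL⟩

end Pool.Agent.TP.H51
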