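import Pool.Agent.Helper28_TP.StS

/-!
# SUBT: connected subsets of every size
-/

set_option autoImplicit false

namespace Pool.Agent.TP.H51

open Pool.Agent.TP
open Pool.Agent.Helper33_FPP (Z2 dst Rect)

theorem dst_comm (u v : ℤ × ℤ) : dst u v = dst v u := by
  unfold dst
  have h1 : (u.1 - v.1).natAbs = (v.1 - u.1).natAbs := by omega
  have h2 : (u.2 - v.2).natAbs = (v.2 - u.2).natAbs := by omega
  rw [h1, h2]

theorem rtg_mono {T T' : Finset (ℤ × ℤ)} (h : T ⊆ T') {x y : ℤ × ℤ}
    (hr : Relation.ReflTransGen (fun u v => v ∈ T ∧ dst u v ≤ 1) x y) :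
    Relation.ReflTransGen (fun u v => v ∈ T' ∧ dst u v ≤ 1) x y := by
  induction hr with
  | refl => exact Relation.ReflTransGen.refl
  | tail _ hbc ih => exact ih.tail ⟨h hbc.1, hbc.2⟩

theorem rtg_exit {T S : Finset (ℤ × ℤ)} {x y : ℤ × ℤ}
    (hr : Relation.ReflTransGen (fun u v => v ∈ T ∧ dst u v ≤ 1) x y) (hx : x ∈ S) (hy : y ∉ S) :
    ∃ u v, u ∈ S ∧ v ∈ T ∧ v ∉ S ∧ dst u v ≤ 1 := by
  induction hr with
  | refl => exact absurd hx hy
  | @tail b c _ hbc ih =>
    by_cases hb : b ∈ S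
    · exact ⟨b, c, hb, hbc.1, hy, hbc.2⟩
    · exact ih hb

theorem sc_insert {T : Finset (ℤ × ℤ)} (hT : SC T) {u w : ℤ × ℤ} (hu : u ∈ T) (hd : dst u w ≤ 1) :
    SC (insert w T) := by
  have hsub : T ⊆ insert w T := Finset.subset_insert _ _
  have hto : ∀ x ∈ T, Relation.ReflTransGen (fun a b => b ∈ insert w T ∧ dst a b ≤ 1) x w := by
    intro x hx
    exact (rtg_mono hsub (hT x hx u hu)).tail ⟨Finset.mem_insert_self _ _, hd⟩
  have hfrom : ∀ x ∈ T, Relation.ReflTransGen (fun a b => b ∈ insert w T ∧ dst a b ≤ 1) w x := by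
    intro x hx
    exact Relation.ReflTransGen.head ⟨hsub hu, by rw [dst_comm]; exact hd⟩
      (rtg_mono hsub (hT u hu x hx))
  intro x hx y hy
  rcases Finset.mem_insert.1 hx with hx1 | hx1
  · rcases Finset.mem_insert.1 hy with hy1 | hy1
    · rw [hx1, hy1]
    · rw [hx1]
      exact hfrom y hy1
  · rcases Finset.mem_insert.1 hy with hy1 | hy1
    · rw [hy1]
      exact hto x hx1
    · exact rtg_mono hsub (hT x hx1 y hy1)

theorem subt : SubtStmt := by
  intro T v j hT hv hj
  induction j, hj using Nat.le_induction with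
  | base =>
    intro _
    refine ⟨{v}, Finset.singleton_subset_iff.2 hv, Finset.mem_singleton_self v,
      Finset.card_singleton v, ?_⟩
    intro x hx y hy
    rw [Finset.mem_singleton.1 hx, Finset.mem_singleton.1 hy]
  | succ j hj ih =>
    intro hc
    obtain ⟨T', hT', hvT', hcard, hSC⟩ := ih (by omega)
    obtain ⟨x, hx, hx'⟩ : ∃ x ∈ T, x ∉ T' := by
      by_contra hcon
      push Not at hcon
      have : T.card ≤ T'.card := Finset.card_le_card hcon
      omega
    obtain ⟨u, w, hu, hw, hw', hd⟩ := rtg_exit (hT v hv x hx) hvT' hx'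
    refine ⟨insert w T', ?_, Finset.mem_insert_of_mem hvT', ?_, sc_insert hSC hu hd⟩
    · intro z hz
      rcases Finset.mem_insert.1 hz with rfl | hz
      · exact hw
      · exact hT' hz
    · rw [Finset.card_insert_of_notMem hw', hcard]

end Pool.Agent.TP.H51
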